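import Mathlib

/-!
Averages over finite types.
-/

set_option autoImplicit false

open scoped BigOperators

namespace Pool.Agent.T98Osi

/-- average over a finite type -/
noncomputable def avg {T : Type*} [Fintype T] (f : T → ℝ) : ℝ :=
  (∑ x, f x) / (Fintype.card T : ℝ)

lemma avg_mono {T : Type*} [Fintype T] {f g : T → ℝ} (h : ∀ x, f x ≤ g x) : avg f ≤ avg g := by
  unfold avg
  gcongr
  exact h _

lemma avg_nonneg {T : Type*} [Fintype T] {f : T → ℝ} (h : ∀ x, 0 ≤ f x) : 0 ≤ avg f := by
  unfold avg
  have : 0 ≤ ∑ x, f x := Finset.sum_nonneg fun x _ => h x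
  positivity

lemma avg_add {T : Type*} [Fintype T] (f g : T → ℝ) :
    avg (fun x => f x + g x) = avg f + avg g := by
  unfold avg
  rw [Finset.sum_add_distrib, add_div]

lemma avg_sub {T : Type*} [Fintype T] (f g : T → ℝ) :
    avg (fun x => f x - g x) = avg f - avg g := by
  unfold avg
  rw [Finset.sum_sub_distrib, sub_div]

lemma avg_mul_left {T : Type*} [Fintype T] (c : ℝ) (f : T → ℝ) :
    avg (fun x => c * f x) = c * avg f := by
  unfold avg
  rw [← Finset.mul_sum, mul_div_assoc]

lemma avg_const {T : Type*} [Fintype T] [Nonempty T] (c : ℝ) : avg (fun _ : T => c) = c := by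
  unfold avg
  rw [Finset.sum_const, Finset.card_univ, nsmul_eq_mul]
  field_simp

lemma avg_sum {T ι : Type*} [Fintype T] (s : Finset ι) (f : ι → T → ℝ) :
    avg (fun x => ∑ i ∈ s, f i x) = ∑ i ∈ s, avg (f i) := by
  unfold avg
  rw [Finset.sum_comm, Finset.sum_div]

lemma avg_equiv {S T : Type*} [Fintype S] [Fintype T] (e : S ≃ T) (f : T → ℝ) :
    avg (fun x => f (e x)) = avg f := by
  unfold avg
  rw [Equiv.sum_comp e f, Fintype.card_congr e]

lemma avg_prod {S T : Type*} [Fintype S] [Fintype T] (f : S × T → ℝ) :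
    avg f = avg (fun x => avg fun y => f (x, y)) := by
  unfold avg
  rw [Fintype.sum_prod_type, Fintype.card_prod]
  push_cast
  rw [← Finset.sum_div, div_div, mul_comm]

lemma avg_comm {S T : Type*} [Fintype S] [Fintype T] (f : S → T → ℝ) :
    avg (fun x => avg fun y => f x y) = avg (fun y => avg fun x => f x y) := by
  rw [← avg_prod (fun z : S × T => f z.1 z.2), ← avg_prod (fun z : T × S => f z.2 z.1)]
  exact avg_equiv (Equiv.prodComm S T) (fun z : T × S => f z.2 z.1)

/-- the average of a product over a product space -/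
lemma avg_pi {ι : Type*} [Fintype ι] [DecidableEq ι] {T : ι → Type*} [∀ i, Fintype (T i)]
    (f : ∀ i, T i → ℝ) : avg (fun x : ∀ i, T i => ∏ i, f i (x i)) = ∏ i, avg (f i) := by
  unfold avg
  rw [Finset.prod_div_distrib, ← Fintype.piFinset_univ, Finset.prod_univ_sum, Fintype.card_pi]
  push_cast
  rfl

/-- picking coordinates along an injection maps the uniform law to the uniform law -/
lemma avg_pick {K I T : Type*} [Fintype K] [Fintype I] [Fintype T] [DecidableEq K] [DecidableEq I]
    [Nonempty T] (e : K → I) (he : Function.Injective e) (g : (K → T) → ℝ) :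
    avg (fun x : I → T => g (fun k => x (e k))) = avg g := by
  classical
  let p : I → Prop := fun i => i ∈ Set.range e
  have h1 : avg (fun x : I → T => g (fun k => x (e k))) =
      avg (fun z : ({i // p i} → T) × ({i // ¬ p i} → T) =>
        g (fun k => z.1 ⟨e k, k, rfl⟩)) :=
    avg_equiv (Equiv.piEquivPiSubtypeProd p (fun _ => T))
      (fun z : ({i // p i} → T) × ({i // ¬ p i} → T) => g (fun k => z.1 ⟨e k, k, rfl⟩))
  have h2 : avg (fun z : ({i // p i} → T) × ({i // ¬ p i} → T) =>
        g (fun k => z.1 ⟨e k, k, rfl⟩)) =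
      avg (fun z : {i // p i} → T => g (fun k => z ⟨e k, k, rfl⟩)) := by
    rw [avg_prod]
    congr 1
    funext z
    exact avg_const (T := ({i // ¬ p i} → T)) (g fun k => z ⟨e k, k, rfl⟩)
  have h3 := avg_equiv (Equiv.arrowCongr (Equiv.ofInjective e he) (Equiv.refl T))
    (fun z : {i // p i} → T => g (fun k => z ⟨e k, k, rfl⟩))
  rw [h1, h2, ← h3]
  congr 1
  funext x
  congr 1
  funext k
  simp only [Equiv.arrowCongr_apply, Equiv.coe_refl, Function.comp_apply, id_eq]
  congr 1
  exact Equiv.ofInjective_symm_apply he k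

end Pool.Agent.T98Osi

namespace Pool.Agent.T98Osi

lemma avg_one {I T : Type*} [Fintype I] [Fintype T] [DecidableEq I] [Nonempty T] (m : I)
    (f : T → ℝ) : avg (fun x : I → T => f (x m)) = avg f := by
  have h := avg_pick (K := Unit) (I := I) (T := T) (fun _ => m) (fun _ _ _ => rfl)
    (fun z => f (z ()))
  rw [h]
  exact avg_equiv (Equiv.funUnique Unit T) f

lemma avg_pair {I T : Type*} [Fintype I] [Fintype T] [DecidableEq I] [Nonempty T] {m m' : I}
    (h : m ≠ m') (G : T → T → ℝ) :
    avg (fun x : I → T => G (x m) (x m')) = avg (fun s => avg fun s' => G s s') := by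
  have h1 := avg_pick (K := Bool) (I := I) (T := T) (fun c => if c then m else m') (by
    intro c c' hc
    cases c <;> cases c' <;> simp_all [eq_comm]) (fun z => G (z true) (z false))
  simp only [if_true, Bool.false_eq_true, if_false] at h1
  rw [h1, ← avg_prod (fun z : T × T => G z.1 z.2),
    ← avg_equiv (Equiv.prodComm T T) (fun z : T × T => G z.1 z.2)]
  exact avg_equiv (Equiv.boolArrowEquivProd T) (fun z : T × T => G z.2 z.1)

lemma avg_indicator_eq {b : ℕ} (t : Fin b) :
    avg (fun s : Fin b => if s = t then (1 : ℝ) else 0) = 1 / b := by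
  unfold avg
  simp

end Pool.Agent.T98Osi
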