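import Pool.Agent.T98Osi.Sign

/-!
The core estimate: the probability that the sketch is injective on a coordinate subspace.
-/

set_option autoImplicit false

open scoped BigOperators

namespace Pool.Agent.T98Osi

open Classical in
/-- indicator of a proposition -/
noncomputable def ind (P : Prop) : ℝ := if P then 1 else 0

lemma ind_nonneg (P : Prop) : 0 ≤ ind P := by unfold ind; split_ifs <;> norm_num

lemma ind_le_one (P : Prop) : ind P ≤ 1 := by unfold ind; split_ifs <;> norm_num

/-- the injectivity event on the span of the first `r` coordinate vectors -/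
def Inj {n ζ b : ℕ} (r : ℕ) (α c : ℝ) (s : Fin n → Fin ζ → Fin b) (ς : Fin n → Fin ζ → Bool) :
    Prop :=
  ∀ x : Fin n → ℝ, (∀ i : Fin n, r ≤ i.1 → x i = 0) → α * ∑ i, x i ^ 2 ≤
    ∑ p : Fin ζ × Fin b, (∑ i, x i * (if s i p.1 = p.2 then sg (ς i p.1) * c else 0)) ^ 2

variable {n ζ b q N r : ℕ}

/-- pick the coordinates of the roots and of the pools -/
def pick (e : Option (Fin ζ × Fin q) × Fin N → Fin n) (s : Fin n → Fin ζ → Fin b) :
    Cfg N q ζ b :=
  (fun m j => s (e (none, m)) j, fun k m => s (e (some k, m)) k.1)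

lemma avg_pick_cfg (hb : 1 ≤ b) {e : Option (Fin ζ × Fin q) × Fin N → Fin n}
    (he : Function.Injective e) (g : Cfg N q ζ b → ℝ) :
    avg (fun s : Fin n → Fin ζ → Fin b => g (pick e s)) = avg g := by
  have : Nonempty (Fin b) := ⟨⟨0, hb⟩⟩
  let ι : (Fin N × Fin ζ) ⊕ ((Fin ζ × Fin q) × Fin N) → Fin n × Fin ζ :=
    Sum.elim (fun a => (e (none, a.1), a.2)) (fun a => (e (some a.1, a.2), a.1.1))
  have hι : Function.Injective ι := by
    rintro (⟨m, j⟩ | ⟨k, m⟩) (⟨m', j'⟩ | ⟨k', m'⟩) h
    · simp only [ι, Sum.elim_inl, Prod.mk.injEq] at h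
      have := he h.1
      simp_all
    · simp only [ι, Sum.elim_inl, Sum.elim_inr, Prod.mk.injEq] at h
      have := he h.1
      simp at this
    · simp only [ι, Sum.elim_inl, Sum.elim_inr, Prod.mk.injEq] at h
      have := he h.1
      simp at this
    · simp only [ι, Sum.elim_inr, Prod.mk.injEq] at h
      have := he h.1
      simp_all
  let g' : ((Fin N × Fin ζ) ⊕ ((Fin ζ × Fin q) × Fin N) → Fin b) → ℝ :=
    fun z => g (fun m j => z (Sum.inl (m, j)), fun k m => z (Sum.inr (k, m)))
  have h1 := avg_pick (T := Fin b) ι hι g'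
  have h2 := avg_equiv (Equiv.curry (Fin n) (Fin ζ) (Fin b)).symm
    (fun x : Fin n × Fin ζ → Fin b => g' (fun k => x (ι k)))
  have e3 : ((Fin N × Fin ζ) ⊕ ((Fin ζ × Fin q) × Fin N) → Fin b) ≃ Cfg N q ζ b :=
    (Equiv.sumArrowEquivProdArrow _ _ _).trans
      (Equiv.prodCongr (Equiv.curry _ _ _) (Equiv.curry _ _ _))
  have h3 : avg g' = avg g := avg_equiv ((Equiv.sumArrowEquivProdArrow _ _ _).trans
      (Equiv.prodCongr (Equiv.curry _ _ _) (Equiv.curry _ _ _))) g
  rw [← h3, ← h1, ← h2]
  rfl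

/-- the core estimate for fixed indices -/
lemma avg_inj_le {α : ℝ} (hα : 0 < α) (hq : 1 ≤ q) (c : ℝ)
    {e : Option (Fin ζ × Fin q) × Fin N → Fin n} (he : Function.Injective e)
    (her : ∀ a, (e a).1 < r) (s : Fin n → Fin ζ → Fin b) :
    avg (fun ς : Fin n → Fin ζ → Bool => ind (Inj r α c s ς)) ≤
      (if X (pick e s) = 0 then 1 else 0) + c ^ 2 * ζ * (ζ / q) / α := by
  have hnn : 0 ≤ c ^ 2 * ζ * (ζ / q) / α := by positivity
  by_cases hX : X (pick e s) = 0
  · rw [if_pos hX]
    have : avg (fun ς : Fin n → Fin ζ → Bool => ind (Inj r α c s ς)) ≤ 1 := by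
      refine (avg_mono fun ς => ind_le_one _).trans (le_of_eq (avg_const 1))
    linarith
  · rw [if_neg hX, zero_add]
    -- a root all of whose rows are hit by all the pools
    obtain ⟨m, -, hm⟩ : ∃ m ∈ (Finset.univ : Finset (Fin N)),
        ∏ k : Fin ζ × Fin q, Y ((pick e s).2 k) ((pick e s).1 m k.1) ≠ 0 := by
      by_contra hc
      push Not at hc
      exact hX (Finset.sum_eq_zero hc)
    have hk : ∀ k : Fin ζ × Fin q, ∃ m', s (e (some k, m')) k.1 = s (e (none, m)) k.1 :=
      fun k => exists_of_Y_ne ((Finset.prod_ne_zero_iff.1 hm) k (Finset.mem_univ k))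
    choose f hf using hk
    let w : Fin ζ × Fin q → Fin n := fun k => e (some k, f k)
    have hw : Function.Injective w := by
      intro k k' h
      have := he h
      simp only [Prod.mk.injEq, Option.some.injEq] at this
      exact this.1
    have hw0 : ∀ k, w k ≠ e (none, m) := by
      intro k h
      have := he h
      simp at this
    have h1 := avg_sketch_le hq s hw hw0 hf c
    rw [le_div_iff₀ hα, mul_comm, ← avg_mul_left]
    refine (avg_mono fun ς => ?_).trans h1
    unfold ind
    split_ifs with hI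
    · have h2 := hI (tv (e (none, m)) w ς) (by
        intro i hi
        apply tv_off
        · rintro rfl
          exact absurd (her (none, m)) (by omega)
        · rintro k rfl
          have h4 : (w k).1 < r := her (some k, f k)
          omega)
      refine le_trans ?_ h2
      rw [mul_one]
      have h3 : (1 : ℝ) ≤ ∑ i, tv (e (none, m)) w ς i ^ 2 := by
        calc (1 : ℝ) = tv (e (none, m)) w ς (e (none, m)) ^ 2 := by rw [tv_root hw0]; norm_num
          _ ≤ _ := Finset.single_le_sum (f := fun i => tv (e (none, m)) w ς i ^ 2)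
              (fun i _ => sq_nonneg _) (Finset.mem_univ _)
      nlinarith
    · rw [mul_zero]
      exact Finset.sum_nonneg fun p _ => sq_nonneg _

/-- the core estimate -/
lemma core (hb : 1 ≤ b) {α : ℝ} (hα : 0 < α) (hq : 1 ≤ q) (hN : 1 ≤ N) (c : ℝ)
    (hNr : (ζ * q + 1) * N ≤ r) (hrn : r ≤ n) :
    avg (fun s : Fin n → Fin ζ → Fin b =>
      avg (fun ς : Fin n → Fin ζ → Bool => ind (Inj r α c s ς))) ≤
      ((1 + (1 + (b : ℝ) / N) ^ q / b) ^ ζ - 1) + (1 + (b : ℝ) / N) ^ (q * ζ) / N +
        c ^ 2 * ζ * (ζ / q) / α := by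
  have : Nonempty (Fin b) := ⟨⟨0, hb⟩⟩
  have hcard : Fintype.card (Option (Fin ζ × Fin q) × Fin N) ≤ Fintype.card (Fin r) := by
    simp only [Fintype.card_prod, Fintype.card_option, Fintype.card_fin]
    exact hNr
  obtain ⟨e₀⟩ := Function.Embedding.nonempty_of_card_le hcard
  let e : Option (Fin ζ × Fin q) × Fin N → Fin n := fun a => Fin.castLE hrn (e₀ a)
  have he : Function.Injective e := fun a a' h => e₀.injective (Fin.castLE_injective hrn h)
  have her : ∀ a, (e a).1 < r := fun a => (e₀ a).2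
  refine (avg_mono fun s => avg_inj_le hα hq c he her s).trans ?_
  rw [avg_add, avg_const]
  have h1 := avg_pick_cfg hb he (fun z : Cfg N q ζ b => if X z = 0 then (1 : ℝ) else 0)
  have h2 := avg_X_zero_le (q := q) (ζ := ζ) hb hN
  linarith

end Pool.Agent.T98Osi
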