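import Pool.Agent.T98Osi.Avg

/-!
Second moment computation.
-/

set_option autoImplicit false

open scoped BigOperators

namespace Pool.Agent.T98Osi

/-- number of entries equal to `t` -/
noncomputable def Y {N b : ℕ} (v : Fin N → Fin b) (t : Fin b) : ℝ :=
  ∑ m, if v m = t then (1 : ℝ) else 0

lemma Y_nonneg {N b : ℕ} (v : Fin N → Fin b) (t : Fin b) : 0 ≤ Y v t :=
  Finset.sum_nonneg fun m _ => by split_ifs <;> norm_num

lemma exists_of_Y_ne {N b : ℕ} {v : Fin N → Fin b} {t : Fin b} (h : Y v t ≠ 0) :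
    ∃ m, v m = t := by
  by_contra hc
  push Not at hc
  apply h
  unfold Y
  exact Finset.sum_eq_zero fun m _ => by rw [if_neg (hc m)]

lemma avg_Y {N b : ℕ} (hb : 1 ≤ b) (t : Fin b) :
    avg (fun v : Fin N → Fin b => Y v t) = N / b := by
  have : Nonempty (Fin b) := ⟨⟨0, hb⟩⟩
  unfold Y
  rw [avg_sum]
  have h : ∀ m : Fin N, avg (fun v : Fin N → Fin b => if v m = t then (1 : ℝ) else 0) = 1 / b :=
    fun m => by
      rw [avg_one m (fun s : Fin b => if s = t then (1 : ℝ) else 0)]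
      exact avg_indicator_eq t
  rw [Finset.sum_congr rfl fun m _ => h m]
  simp
  ring

/-- the pair correlation -/
lemma avg_YY_le {N b : ℕ} (hb : 1 ≤ b) (t t' : Fin b) :
    avg (fun v : Fin N → Fin b => Y v t * Y v t') ≤
      ((N : ℝ) / b) ^ 2 + (if t = t' then (N : ℝ) / b else 0) := by
  have : Nonempty (Fin b) := ⟨⟨0, hb⟩⟩
  have hb0 : (0 : ℝ) < b := by exact_mod_cast hb
  have e : (fun v : Fin N → Fin b => Y v t * Y v t') = fun v => ∑ m : Fin N, ∑ m' : Fin N,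
      ((if v m = t then (1 : ℝ) else 0) * (if v m' = t' then (1 : ℝ) else 0)) := by
    funext v
    unfold Y
    rw [Finset.sum_mul_sum]
  rw [e, avg_sum]
  have h1 : ∀ m : Fin N, avg (fun v : Fin N → Fin b => ∑ m' : Fin N,
      ((if v m = t then (1 : ℝ) else 0) * (if v m' = t' then (1 : ℝ) else 0))) ≤
      ∑ m' : Fin N, ((1 / (b : ℝ)) ^ 2 + if m = m' then (if t = t' then 1 / (b : ℝ) else 0) else 0) := by
    intro m
    rw [avg_sum]
    apply Finset.sum_le_sum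
    intro m' _
    by_cases hm : m = m'
    · subst hm
      rw [if_pos rfl]
      have h2 : avg (fun v : Fin N → Fin b =>
          (if v m = t then (1 : ℝ) else 0) * (if v m = t' then (1 : ℝ) else 0)) =
          avg (fun s : Fin b => (if s = t then (1 : ℝ) else 0) * (if s = t' then (1 : ℝ) else 0)) :=
        avg_one m (fun s : Fin b => (if s = t then (1 : ℝ) else 0) * (if s = t' then (1 : ℝ) else 0))
      rw [h2]
      by_cases ht : t = t'
      · subst ht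
        rw [if_pos rfl]
        have h3 : (fun s : Fin b => (if s = t then (1 : ℝ) else 0) * (if s = t then (1 : ℝ) else 0)) =
            fun s => if s = t then (1 : ℝ) else 0 := by
          funext s
          split_ifs <;> norm_num
        rw [h3, avg_indicator_eq]
        have : 0 ≤ (1 / (b : ℝ)) ^ 2 := by positivity
        linarith
      · rw [if_neg ht]
        have h3 : (fun s : Fin b => (if s = t then (1 : ℝ) else 0) * (if s = t' then (1 : ℝ) else 0)) =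
            fun s => 0 := by
          funext s
          split_ifs with h4 h5
          · exact absurd (h4.symm.trans h5) ht
          all_goals norm_num
        rw [h3, avg_const]
        positivity
    · rw [if_neg hm, avg_pair hm (fun s s' : Fin b =>
        (if s = t then (1 : ℝ) else 0) * (if s' = t' then (1 : ℝ) else 0))]
      simp only [avg_mul_left, avg_indicator_eq]
      have h3 : avg (fun s : Fin b => (if s = t then (1 : ℝ) else 0) * (1 / (b : ℝ))) =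
          1 / b * (1 / b) := by
        have : (fun s : Fin b => (if s = t then (1 : ℝ) else 0) * (1 / (b : ℝ))) =
            fun s => (1 / (b : ℝ)) * (if s = t then (1 : ℝ) else 0) := by
          funext s; ring
        rw [this, avg_mul_left, avg_indicator_eq]
      rw [h3]
      apply le_of_eq
      ring
  refine (Finset.sum_le_sum fun m _ => h1 m).trans (le_of_eq ?_)
  simp only [Finset.sum_add_distrib, Finset.sum_const, Finset.card_univ, Fintype.card_fin,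
    nsmul_eq_mul, Finset.sum_ite_eq, Finset.mem_univ, if_true]
  split_ifs <;> ring

variable {N q ζ b : ℕ}

/-- index configurations of the roots and of the pools -/
abbrev Cfg (N q ζ b : ℕ) : Type :=
  (Fin N → Fin ζ → Fin b) × (Fin ζ × Fin q → Fin N → Fin b)

/-- the number of good patterns -/
noncomputable def X (z : Cfg N q ζ b) : ℝ :=
  ∑ m, ∏ k : Fin ζ × Fin q, Y (z.2 k) (z.1 m k.1)

lemma avg_prod_Y (hb : 1 ≤ b) (τ : Fin ζ → Fin b) :
    avg (fun u : Fin ζ × Fin q → Fin N → Fin b => ∏ k : Fin ζ × Fin q, Y (u k) (τ k.1)) =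
      ((N : ℝ) / b) ^ (ζ * q) := by
  rw [avg_pi (fun (k : Fin ζ × Fin q) (v : Fin N → Fin b) => Y v (τ k.1))]
  rw [Finset.prod_congr rfl fun k _ => avg_Y hb (τ k.1), Finset.prod_const, Finset.card_univ,
    Fintype.card_prod, Fintype.card_fin, Fintype.card_fin]

lemma avg_X (hb : 1 ≤ b) : avg (X : Cfg N q ζ b → ℝ) = N * ((N : ℝ) / b) ^ (ζ * q) := by
  have : Nonempty (Fin b) := ⟨⟨0, hb⟩⟩
  rw [avg_prod]
  have h : ∀ ρ : Fin N → Fin ζ → Fin b,
      avg (fun u : Fin ζ × Fin q → Fin N → Fin b => X (ρ, u)) =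
        N * ((N : ℝ) / b) ^ (ζ * q) := by
    intro ρ
    unfold X
    rw [avg_sum]
    have h2 : ∀ m : Fin N, avg (fun u : Fin ζ × Fin q → Fin N → Fin b =>
        ∏ k : Fin ζ × Fin q, Y (u k) (ρ m k.1)) = ((N : ℝ) / b) ^ (ζ * q) :=
      fun m => avg_prod_Y hb (ρ m)
    rw [Finset.sum_congr rfl fun m _ => h2 m]
    simp
  rw [show (fun ρ : Fin N → Fin ζ → Fin b =>
    avg (fun u : Fin ζ × Fin q → Fin N → Fin b => X (ρ, u))) = fun _ =>
      (N : ℝ) * ((N : ℝ) / b) ^ (ζ * q) from funext h]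
  exact avg_const _

/-- bound for the pair correlation of one pool -/
noncomputable def Kb (N b : ℕ) (t t' : Fin b) : ℝ :=
  ((N : ℝ) / b) ^ 2 + (if t = t' then (N : ℝ) / b else 0)

lemma Kb_nonneg (t t' : Fin b) : 0 ≤ Kb N b t t' := by
  unfold Kb
  split_ifs <;> positivity

lemma Kb_pow_le (t t' : Fin b) : Kb N b t t' ^ q ≤
    ((N : ℝ) / b) ^ (2 * q) + (if t = t' then (((N : ℝ) / b) ^ 2 + (N : ℝ) / b) ^ q else 0) := by
  unfold Kb
  split_ifs
  · have : 0 ≤ ((N : ℝ) / b) ^ (2 * q) := by positivity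
    linarith
  · rw [add_zero, add_zero, pow_mul]

lemma avg_Kb_pow_le (hb : 1 ≤ b) :
    avg (fun t : Fin b => avg fun t' : Fin b => Kb N b t t' ^ q) ≤
      ((N : ℝ) / b) ^ (2 * q) + (((N : ℝ) / b) ^ 2 + (N : ℝ) / b) ^ q / b := by
  have : Nonempty (Fin b) := ⟨⟨0, hb⟩⟩
  have h : ∀ t : Fin b, avg (fun t' : Fin b => Kb N b t t' ^ q) ≤
      ((N : ℝ) / b) ^ (2 * q) + (((N : ℝ) / b) ^ 2 + (N : ℝ) / b) ^ q / b := by
    intro t
    refine (avg_mono fun t' => Kb_pow_le t t').trans ?_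
    rw [avg_add, avg_const]
    have h3 : (fun t' : Fin b => if t = t' then (((N : ℝ) / b) ^ 2 + (N : ℝ) / b) ^ q else 0) =
        fun t' => (((N : ℝ) / b) ^ 2 + (N : ℝ) / b) ^ q * (if t' = t then 1 else 0) := by
      funext t'
      by_cases h : t = t'
      · subst h; simp
      · rw [if_neg h, if_neg (Ne.symm h)]; ring
    rw [h3, avg_mul_left, avg_indicator_eq]
    apply le_of_eq
    ring
  refine (avg_mono h).trans (le_of_eq (avg_const _))

lemma avg_pool_le (hb : 1 ≤ b) (τ τ' : Fin ζ → Fin b) :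
    avg (fun u : Fin ζ × Fin q → Fin N → Fin b =>
      ∏ k : Fin ζ × Fin q, (Y (u k) (τ k.1) * Y (u k) (τ' k.1))) ≤
      ∏ j : Fin ζ, Kb N b (τ j) (τ' j) ^ q := by
  rw [avg_pi (fun (k : Fin ζ × Fin q) (v : Fin N → Fin b) => Y v (τ k.1) * Y v (τ' k.1))]
  calc ∏ k : Fin ζ × Fin q, avg (fun v : Fin N → Fin b => Y v (τ k.1) * Y v (τ' k.1))
      ≤ ∏ k : Fin ζ × Fin q, Kb N b (τ k.1) (τ' k.1) :=
        Finset.prod_le_prod (fun k _ => avg_nonneg fun v => mul_nonneg (Y_nonneg _ _) (Y_nonneg _ _))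
          (fun k _ => avg_YY_le hb _ _)
    _ = _ := by
        rw [Fintype.prod_prod_type]
        simp

lemma avg_XX_le (hb : 1 ≤ b) : avg (fun z : Cfg N q ζ b => X z ^ 2) ≤
    (N : ℝ) ^ 2 * (((N : ℝ) / b) ^ (2 * q) + (((N : ℝ) / b) ^ 2 + (N : ℝ) / b) ^ q / b) ^ ζ +
      N * (((N : ℝ) / b) ^ 2 + (N : ℝ) / b) ^ (q * ζ) := by
  have : Nonempty (Fin b) := ⟨⟨0, hb⟩⟩
  set A : ℝ := ((N : ℝ) / b) ^ (2 * q) + (((N : ℝ) / b) ^ 2 + (N : ℝ) / b) ^ q / b with hA
  set B : ℝ := (((N : ℝ) / b) ^ 2 + (N : ℝ) / b) ^ (q * ζ) with hB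
  have hA0 : 0 ≤ A := by positivity
  have hB0 : 0 ≤ B := by positivity
  rw [avg_prod]
  have e : ∀ (ρ : Fin N → Fin ζ → Fin b) (u : Fin ζ × Fin q → Fin N → Fin b),
      X (ρ, u) ^ 2 = ∑ m : Fin N, ∑ m' : Fin N,
        ∏ k : Fin ζ × Fin q, (Y (u k) (ρ m k.1) * Y (u k) (ρ m' k.1)) := by
    intro ρ u
    unfold X
    rw [sq, Finset.sum_mul_sum]
    simp only [Finset.prod_mul_distrib]
  simp only [e]
  have h1 : ∀ ρ : Fin N → Fin ζ → Fin b,
      avg (fun u : Fin ζ × Fin q → Fin N → Fin b => ∑ m : Fin N, ∑ m' : Fin N,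
        ∏ k : Fin ζ × Fin q, (Y (u k) (ρ m k.1) * Y (u k) (ρ m' k.1))) ≤
      ∑ m : Fin N, ∑ m' : Fin N, ∏ j : Fin ζ, Kb N b (ρ m j) (ρ m' j) ^ q := by
    intro ρ
    rw [avg_sum]
    apply Finset.sum_le_sum
    intro m _
    rw [avg_sum]
    exact Finset.sum_le_sum fun m' _ => avg_pool_le hb _ _
  refine (avg_mono h1).trans ?_
  rw [avg_sum]
  have h2 : ∀ m m' : Fin N, avg (fun ρ : Fin N → Fin ζ → Fin b =>
      ∏ j : Fin ζ, Kb N b (ρ m j) (ρ m' j) ^ q) ≤ A ^ ζ + (if m = m' then B else 0) := by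
    intro m m'
    by_cases hm : m = m'
    · subst hm
      rw [if_pos rfl]
      have h3 : ∀ ρ : Fin N → Fin ζ → Fin b, ∏ j : Fin ζ, Kb N b (ρ m j) (ρ m j) ^ q = B := by
        intro ρ
        have h4 : ∀ j : Fin ζ, Kb N b (ρ m j) (ρ m j) ^ q = (((N : ℝ) / b) ^ 2 + (N : ℝ) / b) ^ q := by
          intro j
          unfold Kb
          rw [if_pos rfl]
        rw [Finset.prod_congr rfl fun j _ => h4 j, Finset.prod_const, Finset.card_univ,
          Fintype.card_fin, ← pow_mul]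
      rw [funext h3, avg_const]
      have : 0 ≤ A ^ ζ := by positivity
      linarith
    · rw [if_neg hm, add_zero, avg_pair hm (fun s s' : Fin ζ → Fin b =>
        ∏ j : Fin ζ, Kb N b (s j) (s' j) ^ q)]
      rw [← avg_prod (fun z : (Fin ζ → Fin b) × (Fin ζ → Fin b) =>
        ∏ j : Fin ζ, Kb N b (z.1 j) (z.2 j) ^ q)]
      rw [← avg_equiv (Equiv.arrowProdEquivProdArrow (Fin ζ) (fun _ => Fin b) (fun _ => Fin b))
        (fun z : (Fin ζ → Fin b) × (Fin ζ → Fin b) => ∏ j : Fin ζ, Kb N b (z.1 j) (z.2 j) ^ q)]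
      have h5 := avg_pi (fun (_ : Fin ζ) (p : Fin b × Fin b) => Kb N b p.1 p.2 ^ q)
      refine (le_of_eq ?_).trans ((le_of_eq h5).trans ?_)
      · rfl
      · rw [Finset.prod_const, Finset.card_univ, Fintype.card_fin]
        have h6 : avg (fun p : Fin b × Fin b => Kb N b p.1 p.2 ^ q) ≤ A := by
          rw [avg_prod]
          exact avg_Kb_pow_le hb
        have h7 : 0 ≤ avg (fun p : Fin b × Fin b => Kb N b p.1 p.2 ^ q) :=
          avg_nonneg fun p => pow_nonneg (Kb_nonneg _ _) _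
        gcongr
  have h3 : ∀ m : Fin N, avg (fun ρ : Fin N → Fin ζ → Fin b =>
      ∑ m' : Fin N, ∏ j : Fin ζ, Kb N b (ρ m j) (ρ m' j) ^ q) ≤ N * A ^ ζ + B := by
    intro m
    rw [avg_sum]
    refine (Finset.sum_le_sum fun m' _ => h2 m m').trans (le_of_eq ?_)
    simp [Finset.sum_add_distrib]
  refine (Finset.sum_le_sum fun m _ => h3 m).trans (le_of_eq ?_)
  simp
  ring

/-- **Chebyshev.** -/
lemma avg_X_zero_le (hb : 1 ≤ b) (hN : 1 ≤ N) :
    avg (fun z : Cfg N q ζ b => if X z = 0 then (1 : ℝ) else 0) ≤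
      ((1 + (1 + (b : ℝ) / N) ^ q / b) ^ ζ - 1) + (1 + (b : ℝ) / N) ^ (q * ζ) / N := by
  have : Nonempty (Fin b) := ⟨⟨0, hb⟩⟩
  have hb0 : (0 : ℝ) < b := by exact_mod_cast hb
  have hN0 : (0 : ℝ) < N := by exact_mod_cast hN
  set E : ℝ := N * ((N : ℝ) / b) ^ (ζ * q) with hE
  have hE0 : 0 < E := by positivity
  have h1 : ∀ z : Cfg N q ζ b, (if X z = 0 then (1 : ℝ) else 0) ≤
      E⁻¹ ^ 2 * (X z ^ 2 - 2 * E * X z + E ^ 2) := by
    intro z
    split_ifs with hz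
    · rw [hz]
      have : E⁻¹ ^ 2 * (0 ^ 2 - 2 * E * 0 + E ^ 2) = 1 := by
        field_simp
        ring
      rw [this]
    · have : X z ^ 2 - 2 * E * X z + E ^ 2 = (X z - E) ^ 2 := by ring
      rw [this]
      positivity
  have h2 : avg (fun z : Cfg N q ζ b => E⁻¹ ^ 2 * (X z ^ 2 - 2 * E * X z + E ^ 2)) =
      E⁻¹ ^ 2 * (avg (fun z : Cfg N q ζ b => X z ^ 2) - E ^ 2) := by
    rw [avg_mul_left, avg_add, avg_sub, avg_mul_left, avg_const]
    have : avg (fun z : Cfg N q ζ b => X z) = E := avg_X hb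
    rw [this]
    ring
  refine (avg_mono h1).trans ?_
  rw [h2]
  have h3 := avg_XX_le (N := N) (q := q) (ζ := ζ) hb
  have hl : (0 : ℝ) < (N : ℝ) / b := by positivity
  have e1 : ((N : ℝ) / b) ^ (2 * q) + (((N : ℝ) / b) ^ 2 + (N : ℝ) / b) ^ q / b =
      ((N : ℝ) / b) ^ (2 * q) * (1 + (1 + (b : ℝ) / N) ^ q / b) := by
    have : ((N : ℝ) / b) ^ 2 + (N : ℝ) / b = ((N : ℝ) / b) ^ 2 * (1 + (b : ℝ) / N) := by
      field_simp
    rw [this, mul_pow, pow_mul]
    ring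
  have e2 : (((N : ℝ) / b) ^ 2 + (N : ℝ) / b) ^ (q * ζ) =
      ((N : ℝ) / b) ^ (2 * (ζ * q)) * (1 + (b : ℝ) / N) ^ (q * ζ) := by
    have : ((N : ℝ) / b) ^ 2 + (N : ℝ) / b = ((N : ℝ) / b) ^ 2 * (1 + (b : ℝ) / N) := by
      field_simp
    rw [this, mul_pow, ← pow_mul, show 2 * (q * ζ) = 2 * (ζ * q) by ring]
  have e3 : E ^ 2 = (N : ℝ) ^ 2 * ((N : ℝ) / b) ^ (2 * (ζ * q)) := by
    rw [hE, mul_pow, ← pow_mul, show ζ * q * 2 = 2 * (ζ * q) by ring]
  rw [e1, e2, mul_pow, ← pow_mul, show 2 * q * ζ = 2 * (ζ * q) by ring] at h3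
  have h4 : avg (fun z : Cfg N q ζ b => X z ^ 2) ≤
      E ^ 2 * (1 + (1 + (b : ℝ) / N) ^ q / b) ^ ζ + E ^ 2 * ((1 + (b : ℝ) / N) ^ (q * ζ) / N) := by
    refine h3.trans (le_of_eq ?_)
    rw [e3]
    field_simp
  calc E⁻¹ ^ 2 * (avg (fun z : Cfg N q ζ b => X z ^ 2) - E ^ 2)
      ≤ E⁻¹ ^ 2 * ((E ^ 2 * (1 + (1 + (b : ℝ) / N) ^ q / b) ^ ζ +
          E ^ 2 * ((1 + (b : ℝ) / N) ^ (q * ζ) / N)) - E ^ 2) := by gcongr
    _ = _ := by
        field_simp
        ring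

end Pool.Agent.T98Osi
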