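import Pool.Agent.T98Osi.Second

/-!
The random signs.
-/

set_option autoImplicit false

open scoped BigOperators

namespace Pool.Agent.T98Osi

/-- value of a sign -/
def sg (s : Bool) : ℝ := if s then 1 else -1

lemma sg_mul_self (s : Bool) : sg s * sg s = 1 := by
  unfold sg; split_ifs <;> norm_num

lemma sg_not (s : Bool) : sg (!s) = -sg s := by
  cases s <;> simp [sg]

variable {n ζ : ℕ}

/-- flip one sign -/
def flip (i : Fin n) (j : Fin ζ) (ς : Fin n → Fin ζ → Bool) : Fin n → Fin ζ → Bool :=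
  fun i' j' => if i' = i ∧ j' = j then !ς i' j' else ς i' j'

lemma flip_invol (i : Fin n) (j : Fin ζ) : Function.Involutive (flip i j) := by
  intro ς
  funext i' j'
  unfold flip
  by_cases h : i' = i ∧ j' = j
  · simp [h]
  · simp [h]

lemma avg_eq_zero_of_flip (i : Fin n) (j : Fin ζ) (f : (Fin n → Fin ζ → Bool) → ℝ)
    (h : ∀ ς, f (flip i j ς) = -f ς) : avg f = 0 := by
  have h1 := avg_equiv (Function.Involutive.toPerm (flip i j) (flip_invol i j)) f
  have h2 : (fun x => f (Function.Involutive.toPerm (flip i j) (flip_invol i j) x)) =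
      fun x => (-1) * f x := by
    funext x
    have : Function.Involutive.toPerm (flip i j) (flip_invol i j) x = flip i j x := rfl
    rw [this, h]
    ring
  rw [h2, avg_mul_left] at h1
  linarith

lemma avg_sq_sum {T ι : Type*} [Fintype T] [Fintype ι] [DecidableEq ι] (f : ι → T → ℝ)
    (h : ∀ k k', k ≠ k' → avg (fun x => f k x * f k' x) = 0) :
    avg (fun x => (∑ k, f k x) ^ 2) = ∑ k, avg (fun x => f k x ^ 2) := by
  have e : (fun x => (∑ k, f k x) ^ 2) = fun x => ∑ k, ∑ k', f k x * f k' x := by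
    funext x
    rw [sq, Finset.sum_mul_sum]
  rw [e, avg_sum]
  apply Finset.sum_congr rfl
  intro k _
  rw [avg_sum]
  rw [Finset.sum_eq_single k]
  · congr 1
    funext x
    ring
  · intro k' _ hk
    exact h k k' (Ne.symm hk)
  · simp

variable {q b : ℕ}

/-- the test vector -/
noncomputable def tv (i₀ : Fin n) (w : Fin ζ × Fin q → Fin n) (ς : Fin n → Fin ζ → Bool)
    (i : Fin n) : ℝ :=
  (if i = i₀ then 1 else 0) -
    ∑ k : Fin ζ × Fin q, if i = w k then (1 / (q : ℝ)) * (sg (ς i₀ k.1) * sg (ς (w k) k.1)) else 0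

lemma tv_root {i₀ : Fin n} {w : Fin ζ × Fin q → Fin n} (h0 : ∀ k, w k ≠ i₀)
    (ς : Fin n → Fin ζ → Bool) : tv i₀ w ς i₀ = 1 := by
  unfold tv
  rw [if_pos rfl, Finset.sum_eq_zero, sub_zero]
  intro k _
  rw [if_neg (Ne.symm (h0 k))]

lemma tv_off {i₀ : Fin n} {w : Fin ζ × Fin q → Fin n} {i : Fin n} (hi : i ≠ i₀)
    (h0 : ∀ k, i ≠ w k) (ς : Fin n → Fin ζ → Bool) : tv i₀ w ς i = 0 := by
  unfold tv
  rw [if_neg hi, Finset.sum_eq_zero, sub_zero]
  intro k _
  rw [if_neg (h0 k)]

lemma sum_tv (i₀ : Fin n) (w : Fin ζ × Fin q → Fin n) (ς : Fin n → Fin ζ → Bool)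
    (M : Fin n → ℝ) : ∑ i, tv i₀ w ς i * M i =
      M i₀ - ∑ k : Fin ζ × Fin q, (1 / (q : ℝ)) * (sg (ς i₀ k.1) * sg (ς (w k) k.1)) * M (w k) := by
  unfold tv
  simp only [sub_mul, Finset.sum_sub_distrib, Finset.sum_mul]
  congr 1
  · simp
  · rw [Finset.sum_comm]
    apply Finset.sum_congr rfl
    intro k _
    simp

/-- one coordinate of the sketch of the test vector -/
lemma coord_tv (hq : 1 ≤ q) (s : Fin n → Fin ζ → Fin b) {i₀ : Fin n} {w : Fin ζ × Fin q → Fin n}
    (hs : ∀ k, s (w k) k.1 = s i₀ k.1) (ς : Fin n → Fin ζ → Bool) (j : Fin ζ) (t : Fin b) (c : ℝ) :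
    ∑ i, tv i₀ w ς i * (if s i j = t then sg (ς i j) * c else 0) =
      ∑ k : Fin ζ × Fin q, (if k.1 = j then 0 else
        -((1 / (q : ℝ)) * c * (if s (w k) j = t then 1 else 0)) *
          (sg (ς i₀ k.1) * sg (ς (w k) k.1) * sg (ς (w k) j))) := by
  have hq0 : (q : ℝ) ≠ 0 := by
    have : (0 : ℝ) < q := by exact_mod_cast hq
    exact this.ne'
  rw [sum_tv]
  have h1 : ∑ k : Fin ζ × Fin q, (1 / (q : ℝ)) * (sg (ς i₀ k.1) * sg (ς (w k) k.1)) *
      (if s (w k) j = t then sg (ς (w k) j) * c else 0) =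
      ∑ k : Fin ζ × Fin q, ((if k.1 = j then (1 / (q : ℝ)) *
        (if s i₀ j = t then sg (ς i₀ j) * c else 0) else 0) +
        (if k.1 = j then 0 else ((1 / (q : ℝ)) * c * (if s (w k) j = t then 1 else 0)) *
          (sg (ς i₀ k.1) * sg (ς (w k) k.1) * sg (ς (w k) j)))) := by
    apply Finset.sum_congr rfl
    intro k _
    by_cases hk : k.1 = j
    · rw [if_pos hk, if_pos hk, add_zero]
      have h2 := hs k
      rw [hk] at h2 ⊢
      rw [h2]
      by_cases ht : s i₀ j = t
      · rw [if_pos ht, if_pos ht]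
        have h3 := sg_mul_self (ς (w k) j)
        linear_combination (1 / (q : ℝ)) * sg (ς i₀ j) * c * h3
      · rw [if_neg ht, if_neg ht]; ring
    · rw [if_neg hk, if_neg hk, zero_add]
      by_cases ht : s (w k) j = t
      · rw [if_pos ht, if_pos ht]; ring
      · rw [if_neg ht, if_neg ht]; ring
  rw [h1, Finset.sum_add_distrib]
  have h2 : ∑ k : Fin ζ × Fin q, (if k.1 = j then (1 / (q : ℝ)) *
        (if s i₀ j = t then sg (ς i₀ j) * c else 0) else 0) =
        (if s i₀ j = t then sg (ς i₀ j) * c else 0) := by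
    rw [Fintype.sum_prod_type]
    rw [Finset.sum_eq_single j]
    · simp only [if_true, Finset.sum_const, Finset.card_univ, Fintype.card_fin, nsmul_eq_mul]
      field_simp
    · intro j' _ hj
      exact Finset.sum_eq_zero fun a _ => if_neg hj
    · simp
  rw [h2, sub_add_cancel_left, ← Finset.sum_neg_distrib]
  apply Finset.sum_congr rfl
  intro k _
  split_ifs <;> ring

/-- **The average over the signs.** -/
lemma avg_sketch_le (hq : 1 ≤ q) (s : Fin n → Fin ζ → Fin b) {i₀ : Fin n}
    {w : Fin ζ × Fin q → Fin n} (hw : Function.Injective w) (hw0 : ∀ k, w k ≠ i₀)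
    (hs : ∀ k, s (w k) k.1 = s i₀ k.1) (c : ℝ) :
    avg (fun ς : Fin n → Fin ζ → Bool => ∑ p : Fin ζ × Fin b,
      (∑ i, tv i₀ w ς i * (if s i p.1 = p.2 then sg (ς i p.1) * c else 0)) ^ 2) ≤
      c ^ 2 * ζ * (ζ / q) := by
  have hq0 : (0 : ℝ) < q := by exact_mod_cast hq
  rw [avg_sum, Fintype.sum_prod_type]
  have h1 : ∀ (j : Fin ζ) (t : Fin b), avg (fun ς : Fin n → Fin ζ → Bool =>
      (∑ i, tv i₀ w ς i * (if s i j = t then sg (ς i j) * c else 0)) ^ 2) ≤
      ∑ k : Fin ζ × Fin q, (c / q) ^ 2 * (if s (w k) j = t then 1 else 0) := by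
    intro j t
    simp only [coord_tv hq s hs]
    rw [avg_sq_sum]
    · apply Finset.sum_le_sum
      intro k _
      by_cases hk : k.1 = j
      · simp only [if_pos hk]
        rw [avg_const, zero_pow (by norm_num)]
        have : (0 : ℝ) ≤ (if s (w k) j = t then 1 else 0) := by split_ifs <;> norm_num
        positivity
      · simp only [if_neg hk]
        have h2 : ∀ ς : Fin n → Fin ζ → Bool,
            (-((1 / (q : ℝ)) * c * (if s (w k) j = t then 1 else 0)) *
              (sg (ς i₀ k.1) * sg (ς (w k) k.1) * sg (ς (w k) j))) ^ 2 =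
            (c / q) ^ 2 * (if s (w k) j = t then 1 else 0) := by
          intro ς
          have a1 := sg_mul_self (ς i₀ k.1)
          have a2 := sg_mul_self (ς (w k) k.1)
          have a3 := sg_mul_self (ς (w k) j)
          have a4 : (sg (ς i₀ k.1) * sg (ς (w k) k.1) * sg (ς (w k) j)) ^ 2 = 1 := by
            calc _ = (sg (ς i₀ k.1) * sg (ς i₀ k.1)) * (sg (ς (w k) k.1) * sg (ς (w k) k.1)) *
                  (sg (ς (w k) j) * sg (ς (w k) j)) := by ring
              _ = 1 := by rw [a1, a2, a3]; ring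
          rw [mul_pow, a4]
          split_ifs <;> ring
        rw [funext h2, avg_const]
    · intro k k' hkk
      by_cases hk : k.1 = j
      · simp only [if_pos hk, zero_mul]
        exact avg_const 0
      by_cases hk' : k'.1 = j
      · simp only [if_pos hk', mul_zero]
        exact avg_const 0
      simp only [if_neg hk, if_neg hk']
      apply avg_eq_zero_of_flip (w k) j
      intro ς
      have f1 : flip (w k) j ς i₀ = ς i₀ := by
        funext j'
        unfold flip
        rw [if_neg]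
        rintro ⟨h, -⟩
        exact hw0 k h.symm
      have f2 : flip (w k) j ς (w k') = ς (w k') := by
        funext j'
        unfold flip
        rw [if_neg]
        rintro ⟨h, -⟩
        exact hkk (hw h).symm
      have f3 : flip (w k) j ς (w k) k.1 = ς (w k) k.1 := by
        unfold flip
        rw [if_neg]
        rintro ⟨-, h⟩
        exact hk h
      have f4 : sg (flip (w k) j ς (w k) j) = -sg (ς (w k) j) := by
        unfold flip
        rw [if_pos ⟨rfl, rfl⟩, sg_not]
      rw [f1, f2, f3, f4]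
      ring
  have h2 : ∀ j : Fin ζ, ∑ t : Fin b, avg (fun ς : Fin n → Fin ζ → Bool =>
      (∑ i, tv i₀ w ς i * (if s i j = t then sg (ς i j) * c else 0)) ^ 2) ≤
      c ^ 2 * (ζ / q) := by
    intro j
    refine (Finset.sum_le_sum fun t _ => h1 j t).trans (le_of_eq ?_)
    rw [Finset.sum_comm]
    simp only [← Finset.mul_sum, Finset.sum_ite_eq, Finset.mem_univ, if_true, mul_one,
      Finset.sum_const, Finset.card_univ, Fintype.card_prod, Fintype.card_fin, nsmul_eq_mul]
    push_cast
    field_simp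
  refine (Finset.sum_le_sum fun j _ => h2 j).trans (le_of_eq ?_)
  simp
  ring

end Pool.Agent.T98Osi
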